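import Mathlib
import Pool.Agent.Lib.ProductZeroOne

/-!
A vertex-transitive, connected, infinite, 4-regular graph with a factor-of-iid proper edge
4-colouring and a factor-of-iid perfect matching, but without a factor-of-iid balanced orientation
and hence without a factor-of-iid Schreier decoration.

The graph is the Cayley graph of the infinite dihedral group for four reflections: the vertices are
`(k, false)` and `(k, true)` with `k : ℤ`, and `(k, false)` is joined to `(k + s, true)` for
`s = 0, 1, 2, 4`.  The type `s` of an edge can be read off from the 4-cycles around it, so every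
automorphism preserves types; the types are therefore a (deterministic) factor-of-iid proper edge
4-colouring, and each type is a perfect matching.  The net flow of a balanced orientation across the
cut between `{k ≤ n}` and `{k > n}` does not depend on `n`, and it is odd since the cut has
`0 + 1 + 2 + 4 = 7` edges.  Its sign is a translation invariant event, so it would have probability
`0` or `1`, but the automorphism `(k, b) ↦ (-k, !b)` reverses it.
-/

open MeasureTheory ProbabilityTheory Set

namespace Pool.Agent.Results.MP_71d783_pr.MatchingNoBalanced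

section definitions

variable {V : Type*}

/-- The iid labels: the product over the vertices of the uniform measure on `[0,1]`. -/
noncomputable def iidLabels (V : Type*) : Measure (V → unitInterval) :=
  Measure.infinitePi fun _ : V => (volume : Measure unitInterval)

/-- Decorations of `G` are encoded as maps `V → V → A` on ordered pairs of vertices (only the values
on adjacent pairs matter).  A structure, given by a predicate `P` on decorations, exists as a factor
of iid on `G` if there is a measurable map `Φ` from labellings to decorations that is equivariant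
under all automorphisms of `G` and satisfies `P (Φ ω)` for almost every labelling `ω`. -/
def ExistsAsFactor (G : SimpleGraph V) {A : Type*} [MeasurableSpace A]
    (P : (V → V → A) → Prop) : Prop :=
  ∃ Φ : (V → unitInterval) → V → V → A, Measurable Φ ∧
    (∀ (γ : G ≃g G) (ω : V → unitInterval) (u v : V),
      Φ (fun x => ω (γ x)) u v = Φ ω (γ u) (γ v)) ∧
    ∀ᵐ ω ∂(iidLabels V), P (Φ ω)

/-- The same, with equivariance under each automorphism required only almost everywhere. -/
def ExistsAsFactorAE (G : SimpleGraph V) {A : Type*} [MeasurableSpace A]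
    (P : (V → V → A) → Prop) : Prop :=
  ∃ Φ : (V → unitInterval) → V → V → A, Measurable Φ ∧
    (∀ γ : G ≃g G, ∀ᵐ ω ∂(iidLabels V), ∀ u v : V,
      Φ (fun x => ω (γ x)) u v = Φ ω (γ u) (γ v)) ∧
    ∀ᵐ ω ∂(iidLabels V), P (Φ ω)

/-- `c u v` is the colour of the edge `uv`; adjacent edges have different colours. -/
def IsProperEdgeColouring (G : SimpleGraph V) (n : ℕ) (c : V → V → Fin n) : Prop :=
  (∀ u v, G.Adj u v → c u v = c v u) ∧
    ∀ u v w, G.Adj u v → G.Adj u w → v ≠ w → c u v ≠ c u w

/-- `m u v` says that the edge `uv` is in the matching; every vertex is covered exactly once. -/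
def IsPerfectMatching (G : SimpleGraph V) (m : V → V → Prop) : Prop :=
  (∀ u v, m u v → G.Adj u v) ∧ (∀ u v, m u v → m v u) ∧ ∀ u, ∃! v, m u v

/-- `o u v` says that `uv` is an edge, oriented from `u` to `v`; every edge has exactly one
orientation. -/
def IsOrientation (G : SimpleGraph V) (o : V → V → Prop) : Prop :=
  (∀ u v, o u v → G.Adj u v) ∧ ∀ u v, G.Adj u v → (o u v ↔ ¬ o v u)

/-- every vertex has out-degree `d` and in-degree `d` -/
def IsBalancedOrientation (G : SimpleGraph V) (d : ℕ) (o : V → V → Prop) : Prop :=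
  IsOrientation G o ∧ ∀ v, {u | o v u}.encard = d ∧ {u | o u v}.encard = d

/-- `(σ u v).1` says that the edge `uv` is oriented from `u` to `v`, and `(σ u v).2` is its colour.
At every vertex, for each of the `d` colours, exactly one outgoing and exactly one incoming edge have
that colour. -/
def IsSchreierDecoration (G : SimpleGraph V) (d : ℕ) (σ : V → V → Prop × Fin d) : Prop :=
  IsOrientation G (fun u v => (σ u v).1) ∧ (∀ u v, G.Adj u v → (σ u v).2 = (σ v u).2) ∧
    ∀ (v : V) (i : Fin d), (∃! u, (σ v u).1 ∧ (σ v u).2 = i) ∧ (∃! u, (σ u v).1 ∧ (σ u v).2 = i)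

lemma ExistsAsFactor.ae {G : SimpleGraph V} {A : Type*} [MeasurableSpace A]
    {P : (V → V → A) → Prop} (h : ExistsAsFactor G P) : ExistsAsFactorAE G P := by
  obtain ⟨Φ, h1, h2, h3⟩ := h
  exact ⟨Φ, h1, fun γ => ae_of_all _ fun ω u v => h2 γ ω u v, h3⟩

end definitions

/-- the difference set -/
def S4 (z : ℤ) : Prop := z = 0 ∨ z = 1 ∨ z = 2 ∨ z = 4

/-- the type of an edge -/
def typ (u v : ℤ × Bool) : ℤ := if u.2 then u.1 - v.1 else v.1 - u.1

def G₀ : SimpleGraph (ℤ × Bool) where
  Adj u v := u.2 ≠ v.2 ∧ S4 (typ u v)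
  symm := ⟨by
    rintro ⟨a, x⟩ ⟨b, y⟩ ⟨h1, h2⟩
    cases x <;> cases y <;> simp_all [typ]⟩
  loopless := ⟨fun u h => h.1 rfl⟩

lemma adj_ff (a b : ℤ) : ¬ G₀.Adj (a, false) (b, false) := fun h => h.1 rfl
lemma adj_tt (a b : ℤ) : ¬ G₀.Adj (a, true) (b, true) := fun h => h.1 rfl
lemma adj_ft (a b : ℤ) : G₀.Adj (a, false) (b, true) ↔ S4 (b - a) := by simp [G₀, typ]
lemma adj_tf (a b : ℤ) : G₀.Adj (a, true) (b, false) ↔ S4 (a - b) := by simp [G₀, typ]

/-- `x` is another neighbour of `v` which has a common neighbour with `u` besides `v`. -/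
def R {V : Type*} (G : SimpleGraph V) (u v x : V) : Prop :=
  x ≠ u ∧ G.Adj v x ∧ ∃ y, y ≠ v ∧ G.Adj u y ∧ G.Adj x y

def P4 {V : Type*} (G : SimpleGraph V) (u v : V) : Prop := ∀ x y, R G u v x → R G u v y → x = y

def Q2 {V : Type*} (G : SimpleGraph V) (u v : V) : Prop := ∃ x, R G u v x ∧ P4 G v x

def Q0 {V : Type*} (G : SimpleGraph V) (u v : V) : Prop :=
  ∃ x y, x ≠ u ∧ y ≠ v ∧ G.Adj v x ∧ G.Adj u y ∧ G.Adj x y ∧ P4 G x y

lemma R_map {V : Type*} {G : SimpleGraph V} (φ : G ≃g G) (u v x : V) :
    R G (φ u) (φ v) (φ x) ↔ R G u v x := by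
  unfold R
  rw [φ.injective.ne_iff, φ.map_adj_iff]
  refine and_congr Iff.rfl (and_congr Iff.rfl ?_)
  constructor
  · rintro ⟨y, h1, h2, h3⟩
    obtain ⟨y, rfl⟩ := φ.surjective y
    exact ⟨y, φ.injective.ne_iff.1 h1, φ.map_adj_iff.1 h2, φ.map_adj_iff.1 h3⟩
  · rintro ⟨y, h1, h2, h3⟩
    exact ⟨φ y, φ.injective.ne_iff.2 h1, φ.map_adj_iff.2 h2, φ.map_adj_iff.2 h3⟩

lemma P4_map {V : Type*} {G : SimpleGraph V} (φ : G ≃g G) (u v : V) :
    P4 G (φ u) (φ v) ↔ P4 G u v := by
  unfold P4
  constructor
  · intro h x y hx hy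
    exact φ.injective (h (φ x) (φ y) ((R_map φ _ _ _).2 hx) ((R_map φ _ _ _).2 hy))
  · intro h x y hx hy
    obtain ⟨x, rfl⟩ := φ.surjective x
    obtain ⟨y, rfl⟩ := φ.surjective y
    rw [h x y ((R_map φ _ _ _).1 hx) ((R_map φ _ _ _).1 hy)]

lemma Q2_map {V : Type*} {G : SimpleGraph V} (φ : G ≃g G) (u v : V) :
    Q2 G (φ u) (φ v) ↔ Q2 G u v := by
  unfold Q2
  constructor
  · rintro ⟨x, h1, h2⟩
    obtain ⟨x, rfl⟩ := φ.surjective x
    exact ⟨x, (R_map φ _ _ _).1 h1, (P4_map φ _ _).1 h2⟩
  · rintro ⟨x, h1, h2⟩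
    exact ⟨φ x, (R_map φ _ _ _).2 h1, (P4_map φ _ _).2 h2⟩

lemma Q0_map {V : Type*} {G : SimpleGraph V} (φ : G ≃g G) (u v : V) :
    Q0 G (φ u) (φ v) ↔ Q0 G u v := by
  unfold Q0
  constructor
  · rintro ⟨x, y, h1, h2, h3, h4, h5, h6⟩
    obtain ⟨x, rfl⟩ := φ.surjective x
    obtain ⟨y, rfl⟩ := φ.surjective y
    exact ⟨x, y, φ.injective.ne_iff.1 h1, φ.injective.ne_iff.1 h2, φ.map_adj_iff.1 h3,
      φ.map_adj_iff.1 h4, φ.map_adj_iff.1 h5, (P4_map φ _ _).1 h6⟩
  · rintro ⟨x, y, h1, h2, h3, h4, h5, h6⟩
    exact ⟨φ x, φ y, φ.injective.ne_iff.2 h1, φ.injective.ne_iff.2 h2, φ.map_adj_iff.2 h3,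
      φ.map_adj_iff.2 h4, φ.map_adj_iff.2 h5, (P4_map φ _ _).2 h6⟩

/-- close differences -/
def close (z : ℤ) : Prop := z = 1 ∨ z = -1 ∨ z = 2 ∨ z = -2

lemma R_iff_f (a b c : ℤ) (h : S4 (b - a)) :
    R G₀ (a, false) (b, true) (c, false) ↔ S4 (b - c) ∧ close (c - a) := by
  unfold R
  constructor
  · rintro ⟨h1, h2, ⟨y, z⟩, h3, h4, h5⟩
    rw [adj_tf] at h2
    cases z
    · exact absurd h4 (adj_ff _ _)
    · rw [adj_ft] at h4 h5
      have h1' : c ≠ a := fun h => h1 (by rw [h])
      have h3' : y ≠ b := fun h => h3 (by rw [h])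
      unfold S4 close at *
      omega
  · rintro ⟨h1, h2⟩
    refine ⟨?_, (adj_tf _ _).2 h1, ?_⟩
    · intro h3
      have : c = a := congrArg Prod.fst h3
      unfold close at h2
      omega
    · have : ∃ y, y ≠ b ∧ S4 (y - a) ∧ S4 (y - c) := by
        unfold S4 close at *
        by_cases e1 : c - a = 1
        · by_cases e2 : b = a + 1
          · exact ⟨a + 2, by omega, by omega, by omega⟩
          · exact ⟨a + 1, by omega, by omega, by omega⟩
        by_cases e1 : c - a = -1
        · by_cases e2 : b = a + 1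
          · exact ⟨a, by omega, by omega, by omega⟩
          · exact ⟨a + 1, by omega, by omega, by omega⟩
        by_cases e1 : c - a = 2
        · by_cases e2 : b = a + 2
          · exact ⟨a + 4, by omega, by omega, by omega⟩
          · exact ⟨a + 2, by omega, by omega, by omega⟩
        · by_cases e2 : b = a + 2
          · exact ⟨a, by omega, by omega, by omega⟩
          · exact ⟨a + 2, by omega, by omega, by omega⟩
      obtain ⟨y, h3, h4, h5⟩ := this
      exact ⟨(y, true), fun h => h3 (congrArg Prod.fst h), (adj_ft _ _).2 h4, (adj_ft _ _).2 h5⟩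

/-- the flip automorphism exchanging the two rows and the two ends -/
def flip : G₀ ≃g G₀ where
  toFun u := (-u.1, !u.2)
  invFun u := (-u.1, !u.2)
  left_inv u := by simp
  right_inv u := by simp
  map_rel_iff' := by
    rintro ⟨a, x⟩ ⟨b, y⟩
    cases x <;> cases y <;> simp [G₀, typ, S4] <;> omega

/-- translations -/
def trans (n : ℤ) : G₀ ≃g G₀ where
  toFun u := (u.1 + n, u.2)
  invFun u := (u.1 - n, u.2)
  left_inv u := by simp
  right_inv u := by simp
  map_rel_iff' := by
    rintro ⟨a, x⟩ ⟨b, y⟩
    cases x <;> cases y <;> simp [G₀, typ, S4]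

lemma R_row {a b : ℤ} {x : ℤ × Bool} (h : R G₀ (a, false) (b, true) x) : x.2 = false := by
  obtain ⟨c, z⟩ := x
  cases z
  · rfl
  · exact absurd h.2.1 (adj_tt _ _)

lemma P4_f (a b : ℤ) (h : S4 (b - a)) : P4 G₀ (a, false) (b, true) ↔ b - a = 4 := by
  constructor
  · intro hP
    by_contra hne
    -- two distinct elements
    have key : ∀ c d : ℤ, S4 (b - c) ∧ close (c - a) → S4 (b - d) ∧ close (d - a) → c = d := by
      intro c d h1 h2
      exact congrArg Prod.fst (hP (c, false) (d, false) ((R_iff_f a b c h).2 h1)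
        ((R_iff_f a b d h).2 h2))
    unfold S4 close at *
    have h1 := key (b - 1) (b - 2)
    have h2 := key b (b - 2)
    have h3 := key b (b - 1)
    omega
  · intro he x y hx hy
    obtain ⟨c, z⟩ := x
    obtain ⟨d, w⟩ := y
    have hz := R_row hx
    have hw := R_row hy
    simp only at hz hw
    subst hz
    subst hw
    rw [R_iff_f a b _ h] at hx hy
    have : c = d := by
      unfold S4 close at *
      omega
    rw [this]

lemma P4_t (a b : ℤ) (h : S4 (a - b)) : P4 G₀ (a, true) (b, false) ↔ a - b = 4 := by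
  rw [← P4_map flip]
  have h2 : S4 (-b - -a) := by
    have : -b - -a = a - b := by ring
    rwa [this]
  have := P4_f (-a) (-b) h2
  refine Iff.trans (by exact this) ?_
  constructor <;> intro h3 <;> omega

lemma Q2_f (a b : ℤ) (h : S4 (b - a)) : Q2 G₀ (a, false) (b, true) ↔ b - a = 2 := by
  constructor
  · rintro ⟨⟨c, z⟩, h1, h2⟩
    have hz := R_row h1
    simp only at hz
    subst hz
    rw [R_iff_f a b _ h] at h1
    rw [P4_t _ _ h1.1] at h2
    unfold S4 close at *
    omega
  · intro he
    have hs : S4 (b - (b - 4)) := by unfold S4; omega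
    refine ⟨(b - 4, false), (R_iff_f a b _ h).2 ⟨hs, ?_⟩, (P4_t _ _ hs).2 ?_⟩
    · unfold close; omega
    · omega

lemma Q0_f (a b : ℤ) (h : S4 (b - a)) : Q0 G₀ (a, false) (b, true) ↔ b - a = 0 := by
  constructor
  · rintro ⟨⟨c, z⟩, ⟨d, w⟩, h1, h2, h3, h4, h5, h6⟩
    cases z
    · cases w
      · exact absurd h5 (adj_ff _ _)
      · rw [adj_tf] at h3
        rw [adj_ft] at h4 h5
        rw [P4_f _ _ h5] at h6
        have h1' : c ≠ a := fun h => h1 (by rw [h])
        have h2' : d ≠ b := fun h => h2 (by rw [h])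
        unfold S4 at *
        omega
    · exact absurd h3 (adj_tt _ _)
  · intro he
    have hs : S4 (a + 2 - (b - 2)) := by unfold S4; omega
    refine ⟨(b - 2, false), (a + 2, true), ?_, ?_, (adj_tf _ _).2 ?_, (adj_ft _ _).2 ?_,
      (adj_ft _ _).2 hs, (P4_f _ _ hs).2 ?_⟩
    · intro h; have := congrArg Prod.fst h; simp only at this; omega
    · intro h; have := congrArg Prod.fst h; simp only at this; omega
    · unfold S4; omega
    · unfold S4; omega
    · omega

lemma typ_f (a b : ℤ) : typ (a, false) (b, true) = b - a := by simp [typ]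
lemma typ_t (a b : ℤ) : typ (a, true) (b, false) = a - b := by simp [typ]

/-- types are determined by the graph -/
lemma typ_char {u v : ℤ × Bool} (h : G₀.Adj u v) :
    (P4 G₀ u v ↔ typ u v = 4) ∧ (Q2 G₀ u v ↔ typ u v = 2) ∧ (Q0 G₀ u v ↔ typ u v = 0) := by
  obtain ⟨a, x⟩ := u
  obtain ⟨b, y⟩ := v
  cases x <;> cases y
  · exact absurd h (adj_ff _ _)
  · rw [adj_ft] at h
    rw [typ_f]
    exact ⟨P4_f _ _ h, Q2_f _ _ h, Q0_f _ _ h⟩
  · rw [adj_tf] at h
    rw [typ_t]
    have h2 : S4 (-b - -a) := by
      have : -b - -a = a - b := by ring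
      rwa [this]
    have e : -b - -a = a - b := by ring
    refine ⟨P4_t _ _ h, ?_, ?_⟩
    · rw [← Q2_map flip, ← e]; exact Q2_f (-a) (-b) h2
    · rw [← Q0_map flip, ← e]; exact Q0_f (-a) (-b) h2
  · exact absurd h (adj_tt _ _)

lemma typ_map (φ : G₀ ≃g G₀) {u v : ℤ × Bool} (h : G₀.Adj u v) : typ (φ u) (φ v) = typ u v := by
  have h' : G₀.Adj (φ u) (φ v) := φ.map_adj_iff.2 h
  obtain ⟨a4, a2, a0⟩ := typ_char h
  obtain ⟨b4, b2, b0⟩ := typ_char h'
  rw [P4_map, a4] at b4
  rw [Q2_map, a2] at b2
  rw [Q0_map, a0] at b0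
  have s1 := h.2
  have s2 := h'.2
  unfold S4 at s1 s2
  omega


lemma flip_apply (u : ℤ × Bool) : flip u = (-u.1, !u.2) := rfl
lemma trans_apply (n : ℤ) (u : ℤ × Bool) : trans n u = (u.1 + n, u.2) := rfl

lemma transitive (u v : ℤ × Bool) : ∃ γ : G₀ ≃g G₀, γ u = v := by
  obtain ⟨a, x⟩ := u
  obtain ⟨b, y⟩ := v
  by_cases hxy : x = y
  · subst hxy
    exact ⟨trans (b - a), by rw [trans_apply]; simp⟩
  · refine ⟨flip.trans (trans (b + a)), ?_⟩
    change trans (b + a) (flip (a, x)) = (b, y)
    rw [flip_apply, trans_apply]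
    have : (!x) = y := by cases x <;> cases y <;> simp_all
    simp [this]

lemma regular (v : ℤ × Bool) : (G₀.neighborSet v).encard = 2 * (2 : ℕ) := by
  have key : (G₀.neighborSet ((0 : ℤ), false)).encard = 2 * (2 : ℕ) := by
    have : G₀.neighborSet ((0 : ℤ), false) =
        (({(0, true), (1, true), (2, true), (4, true)} : Finset (ℤ × Bool)) : Set (ℤ × Bool)) := by
      ext ⟨b, y⟩
      rw [SimpleGraph.mem_neighborSet]
      cases y
      · simp [adj_ff]
      · rw [adj_ft]
        simp [S4]
    rw [this, Set.encard_coe_eq_coe_finsetCard]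
    rfl
  obtain ⟨γ, hγ⟩ := transitive (0, false) v
  have : G₀.neighborSet v = γ '' (G₀.neighborSet (0, false)) := by
    ext w
    obtain ⟨w, rfl⟩ := γ.surjective w
    rw [SimpleGraph.mem_neighborSet, ← hγ, γ.map_adj_iff, γ.injective.mem_set_image,
      SimpleGraph.mem_neighborSet]
  rw [this, γ.injective.encard_image, key]

lemma connected : G₀.Connected := by
  have hstep : ∀ k : ℤ, G₀.Reachable (k, false) (k + 1, false) := by
    intro k
    have h1 : G₀.Adj (k, false) (k + 1, true) := (adj_ft _ _).2 (by simp [S4])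
    have h2 : G₀.Adj (k + 1, true) (k + 1, false) := (adj_tf _ _).2 (by simp [S4])
    exact h1.reachable.trans h2.reachable
  have h0 : ∀ k : ℤ, G₀.Reachable (0, false) (k, false) := by
    intro k
    induction k using Int.induction_on with
    | zero => exact SimpleGraph.Reachable.refl _
    | succ i hi => exact hi.trans (hstep _)
    | pred i hi =>
      have := hstep (-(i : ℤ) - 1)
      rw [sub_add_cancel] at this
      exact hi.trans this.symm
  have h1 : ∀ v : ℤ × Bool, G₀.Reachable (0, false) v := by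
    rintro ⟨k, b⟩
    cases b
    · exact h0 k
    · have h2 : G₀.Adj (k, false) (k, true) := (adj_ft _ _).2 (by simp [S4])
      exact (h0 k).trans h2.reachable
  exact ⟨fun u v => (h1 u).symm.trans (h1 v)⟩

open Classical in
/-- the colouring of the edges by their types -/
noncomputable def col (u v : ℤ × Bool) : Fin 4 :=
  if G₀.Adj u v then
    (if typ u v = 0 then 0 else if typ u v = 1 then 1 else if typ u v = 2 then 2 else 3)
  else 0

lemma typ_symm {u v : ℤ × Bool} (h : G₀.Adj u v) : typ u v = typ v u := by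
  obtain ⟨a, x⟩ := u
  obtain ⟨b, y⟩ := v
  have h1 := h.1
  cases x <;> cases y <;> simp_all [typ]

lemma typ_inj {u v w : ℤ × Bool} (hv : G₀.Adj u v) (hw : G₀.Adj u w) (h : typ u v = typ u w) :
    v = w := by
  obtain ⟨a, x⟩ := u
  obtain ⟨b, y⟩ := v
  obtain ⟨c, z⟩ := w
  have h1 := hv.1
  have h2 := hw.1
  cases x <;> cases y <;> cases z <;> simp_all [typ]

lemma col_proper : IsProperEdgeColouring G₀ (2 * 2) col := by
  constructor
  · intro u v h
    unfold col
    rw [if_pos h, if_pos h.symm, typ_symm h]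
  · intro u v w hv hw hne heq
    apply hne
    apply typ_inj hv hw
    have s1 := hv.2
    have s2 := hw.2
    unfold col at heq
    rw [if_pos hv, if_pos hw] at heq
    unfold S4 at s1 s2
    rcases s1 with s1 | s1 | s1 | s1 <;> rcases s2 with s2 | s2 | s2 | s2 <;>
      simp [s1, s2] at heq ⊢

lemma col_map (γ : G₀ ≃g G₀) (u v : ℤ × Bool) : col (γ u) (γ v) = col u v := by
  unfold col
  by_cases h : G₀.Adj u v
  · rw [if_pos h, if_pos (γ.map_adj_iff.2 h), typ_map γ h]
  · rw [if_neg h, if_neg (fun h' => h (γ.map_adj_iff.1 h'))]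

/-- the matching formed by the edges of type `4` -/
def mat (u v : ℤ × Bool) : Prop := G₀.Adj u v ∧ typ u v = 4

lemma mat_perfect : IsPerfectMatching G₀ mat := by
  refine ⟨fun u v h => h.1, fun u v h => ⟨h.1.symm, by rw [← typ_symm h.1]; exact h.2⟩, ?_⟩
  rintro ⟨a, x⟩
  have huniq : ∀ v, mat (a, x) v → ∀ w, mat (a, x) w → w = v := fun v hv w hw =>
    typ_inj hw.1 hv.1 (hw.2.trans hv.2.symm)
  cases x
  · have h : mat (a, false) (a + 4, true) :=
      ⟨(adj_ft _ _).2 (by simp [S4]), by rw [typ_f]; ring⟩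
    exact ⟨_, h, huniq _ h⟩
  · have h : mat (a, true) (a - 4, false) :=
      ⟨(adj_tf _ _).2 (by simp [S4]), by rw [typ_t]; ring⟩
    exact ⟨_, h, huniq _ h⟩

lemma mat_map (γ : G₀ ≃g G₀) (u v : ℤ × Bool) : mat (γ u) (γ v) ↔ mat u v := by
  unfold mat
  rw [γ.map_adj_iff]
  constructor
  · rintro ⟨h1, h2⟩
    exact ⟨h1, by rwa [typ_map γ h1] at h2⟩
  · rintro ⟨h1, h2⟩
    exact ⟨h1, by rwa [typ_map γ h1]⟩

lemma exists_colouring : ExistsAsFactor G₀ (IsProperEdgeColouring G₀ (2 * 2)) :=
  ⟨fun _ => col, measurable_const, fun γ _ u v => (col_map γ u v).symm,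
    ae_of_all _ fun _ => col_proper⟩

lemma exists_matching : ExistsAsFactor G₀ (IsPerfectMatching G₀) :=
  ⟨fun _ => mat, measurable_const, fun γ _ u v => propext (mat_map γ u v).symm,
    ae_of_all _ fun _ => mat_perfect⟩

section flow

open Classical in
/-- `+1` if the edge of type `s` at `(k, false)` points to the row `true`, `-1` otherwise -/
noncomputable def sgn (o : ℤ × Bool → ℤ × Bool → Prop) (k s : ℤ) : ℤ :=
  if o (k, false) (k + s, true) then 1 else -1

lemma sgn_cases (o : ℤ × Bool → ℤ × Bool → Prop) (k s : ℤ) : sgn o k s = 1 ∨ sgn o k s = -1 := by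
  unfold sgn
  split_ifs
  · exact Or.inl rfl
  · exact Or.inr rfl

lemma sgn_pos {o : ℤ × Bool → ℤ × Bool → Prop} {k s : ℤ} (h : o (k, false) (k + s, true)) :
    sgn o k s = 1 := if_pos h

lemma sgn_neg {o : ℤ × Bool → ℤ × Bool → Prop} {k s : ℤ} (h : ¬ o (k, false) (k + s, true)) :
    sgn o k s = -1 := if_neg h

/-- net flow across the cut between `{k ≤ n}` and `{k > n}` -/
noncomputable def flow (o : ℤ × Bool → ℤ × Bool → Prop) (n : ℤ) : ℤ :=
  sgn o n 1 + (sgn o n 2 + sgn o (n - 1) 2) +
    (sgn o n 4 + sgn o (n - 1) 4 + sgn o (n - 2) 4 + sgn o (n - 3) 4)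

lemma flow_ne_zero (o : ℤ × Bool → ℤ × Bool → Prop) (n : ℤ) : flow o n ≠ 0 := by
  unfold flow
  have h1 := sgn_cases o n 1
  have h2 := sgn_cases o n 2
  have h3 := sgn_cases o (n - 1) 2
  have h4 := sgn_cases o n 4
  have h5 := sgn_cases o (n - 1) 4
  have h6 := sgn_cases o (n - 2) 4
  have h7 := sgn_cases o (n - 3) 4
  omega

variable {o : ℤ × Bool → ℤ × Bool → Prop}

lemma out_sum (ho : IsBalancedOrientation G₀ 2 o) (k : ℤ) :
    sgn o k 0 + sgn o k 1 + sgn o k 2 + sgn o k 4 = 0 := by
  classical
  have h1 := (ho.2 (k, false)).1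
  have h2 : {u | o (k, false) u} = (((({(k + 0, true), (k + 1, true), (k + 2, true), (k + 4, true)} :
      Finset (ℤ × Bool)).filter (fun u => o (k, false) u)) : Finset (ℤ × Bool)) : Set (ℤ × Bool)) := by
    ext ⟨b, y⟩
    simp only [mem_ofPred_eq, Finset.coe_filter, Finset.mem_insert, Finset.mem_singleton]
    constructor
    · intro h
      refine ⟨?_, h⟩
      have hadj := ho.1.1 _ _ h
      cases y
      · exact absurd hadj (adj_ff _ _)
      · rw [adj_ft] at hadj
        unfold S4 at hadj
        rcases hadj with h | h | h | h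
        · left; rw [Prod.mk.injEq]; exact ⟨by omega, rfl⟩
        · right; left; rw [Prod.mk.injEq]; exact ⟨by omega, rfl⟩
        · right; right; left; rw [Prod.mk.injEq]; exact ⟨by omega, rfl⟩
        · right; right; right; rw [Prod.mk.injEq]; exact ⟨by omega, rfl⟩
    · exact fun h => h.2
  rw [h2, Set.encard_coe_eq_coe_finsetCard, Finset.card_filter] at h1
  rw [Finset.sum_insert (by simp), Finset.sum_insert (by simp), Finset.sum_insert (by simp),
    Finset.sum_singleton] at h1
  have h3 : (((if o (k, false) (k + 0, true) then 1 else 0) +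
    ((if o (k, false) (k + 1, true) then 1 else 0) + ((if o (k, false) (k + 2, true) then 1 else 0) +
      (if o (k, false) (k + 4, true) then 1 else 0)))) : ℕ) = 2 := by
    exact_mod_cast h1
  unfold sgn
  split_ifs at h3 ⊢ <;> omega

lemma in_sum (ho : IsBalancedOrientation G₀ 2 o) (l : ℤ) :
    sgn o (l - 0) 0 + sgn o (l - 1) 1 + sgn o (l - 2) 2 + sgn o (l - 4) 4 = 0 := by
  classical
  have h1 := (ho.2 (l, true)).2
  have h2 : {u | o u (l, true)} = (((({(l - 0, false), (l - 1, false), (l - 2, false), (l - 4, false)} :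
      Finset (ℤ × Bool)).filter (fun u => o u (l, true))) : Finset (ℤ × Bool)) : Set (ℤ × Bool)) := by
    ext ⟨b, y⟩
    simp only [mem_ofPred_eq, Finset.coe_filter, Finset.mem_insert, Finset.mem_singleton]
    constructor
    · intro h
      refine ⟨?_, h⟩
      have hadj := ho.1.1 _ _ h
      cases y
      · rw [adj_ft] at hadj
        unfold S4 at hadj
        rcases hadj with h | h | h | h
        · left; rw [Prod.mk.injEq]; exact ⟨by omega, rfl⟩
        · right; left; rw [Prod.mk.injEq]; exact ⟨by omega, rfl⟩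
        · right; right; left; rw [Prod.mk.injEq]; exact ⟨by omega, rfl⟩
        · right; right; right; rw [Prod.mk.injEq]; exact ⟨by omega, rfl⟩
      · exact absurd hadj (adj_tt _ _)
    · exact fun h => h.2
  rw [h2, Set.encard_coe_eq_coe_finsetCard, Finset.card_filter] at h1
  rw [Finset.sum_insert (by simp; omega), Finset.sum_insert (by simp),
    Finset.sum_insert (by simp), Finset.sum_singleton] at h1
  have h3 : (((if o (l - 0, false) (l, true) then 1 else 0) +
    ((if o (l - 1, false) (l, true) then 1 else 0) + ((if o (l - 2, false) (l, true) then 1 else 0) +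
      (if o (l - 4, false) (l, true) then 1 else 0)))) : ℕ) = 2 := by
    exact_mod_cast h1
  unfold sgn
  simp only [sub_add_cancel]
  split_ifs at h3 ⊢ <;> omega

lemma flow_step (ho : IsBalancedOrientation G₀ 2 o) (n : ℤ) : flow o n = flow o (n - 1) := by
  have h1 := out_sum ho n
  have h2 := in_sum ho n
  unfold flow
  have e0 : n - 0 = n := by ring
  have e1 : n - 1 - 1 = n - 2 := by ring
  have e2 : n - 1 - 2 = n - 3 := by ring
  have e3 : n - 1 - 3 = n - 4 := by ring
  rw [e0] at h2
  rw [e1, e2, e3]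
  linarith

lemma flow_const (ho : IsBalancedOrientation G₀ 2 o) (n : ℤ) : flow o n = flow o 0 := by
  induction n using Int.induction_on with
  | zero => rfl
  | succ i hi => rw [flow_step ho, add_sub_cancel_right, hi]
  | pred i hi => rw [← hi, flow_step ho (-(i : ℤ))]

lemma flow_trans (o : ℤ × Bool → ℤ × Bool → Prop) (m n : ℤ) :
    flow (fun u v => o (trans m u) (trans m v)) n = flow o (n + m) := by
  have hs : ∀ k s, sgn (fun u v => o (trans m u) (trans m v)) k s = sgn o (k + m) s := by
    intro k s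
    have e : k + s + m = k + m + s := by ring
    have hiff : o (trans m (k, false)) (trans m (k + s, true)) ↔
        o (k + m, false) (k + m + s, true) := by
      simp only [trans_apply]; rw [e]
    by_cases h : o (k + m, false) (k + m + s, true)
    · rw [sgn_pos h, sgn_pos (hiff.2 h)]
    · rw [sgn_neg h, sgn_neg (fun h' => h (hiff.1 h'))]
  unfold flow
  simp only [hs]
  have e1 : n - 1 + m = n + m - 1 := by ring
  have e2 : n - 2 + m = n + m - 2 := by ring
  have e3 : n - 3 + m = n + m - 3 := by ring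
  rw [e1, e2, e3]

lemma flow_flip (ho : IsOrientation G₀ o) (n : ℤ) :
    flow (fun u v => o (flip u) (flip v)) n = -flow o (-n - 1) := by
  have hs : ∀ k s, S4 s → sgn (fun u v => o (flip u) (flip v)) k s = -sgn o (-k - s) s := by
    intro k s hs
    have e : -k - s + s = -k := by ring
    have e' : -(k + s) = -k - s := by ring
    have hadj : G₀.Adj (-k, true) (-k - s, false) := (adj_tf _ _).2 (by
      have : -k - (-k - s) = s := by ring
      rwa [this])
    have hor := ho.2 _ _ hadj
    have hiff : o (flip (k, false)) (flip (k + s, true)) ↔ o (-k, true) (-k - s, false) := by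
      simp only [flip_apply, Bool.not_false, Bool.not_true]; rw [e']
    by_cases h : o (-k, true) (-k - s, false)
    · rw [sgn_pos (hiff.2 h), sgn_neg (by rw [e]; exact hor.1 h)]; ring
    · rw [sgn_neg (fun h' => h (hiff.1 h')), sgn_pos (by
        rw [e]; exact not_not.1 (fun h' => h (hor.2 h')))]
  unfold flow
  rw [hs _ 1 (by simp [S4]), hs _ 2 (by simp [S4]), hs _ 2 (by simp [S4]), hs _ 4 (by simp [S4]),
    hs _ 4 (by simp [S4]), hs _ 4 (by simp [S4]), hs _ 4 (by simp [S4])]
  have e1 : -n - 1 - 1 = -n - 2 := by ring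
  have e2 : -n - 1 - 2 = -n - 3 := by ring
  have e3 : -n - 1 - 3 = -n - 4 := by ring
  have f1 : -(n - 1) - 2 = -n - 1 := by ring
  have f2 : -(n - 1) - 4 = -n - 3 := by ring
  have f3 : -(n - 2) - 4 = -n - 2 := by ring
  have f4 : -(n - 3) - 4 = -n - 1 := by ring
  rw [e1, e2, e3, f1, f2, f3, f4]
  ring

end flow

open scoped symmDiff in
/-- no factor-of-iid balanced orientation, even with almost everywhere equivariance -/
theorem no_balanced : ¬ ExistsAsFactorAE G₀ (IsBalancedOrientation G₀ 2) := by
  rintro ⟨Φ, hm, heq, hbal⟩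
  set μ := iidLabels (ℤ × Bool) with hμ
  have hμp : IsProbabilityMeasure μ := by rw [hμ]; unfold iidLabels; infer_instance
  set A : Set (ℤ × Bool → unitInterval) := {ω | 0 < flow (Φ ω) 0} with hA
  have hms : ∀ k s : ℤ, Measurable fun ω => sgn (Φ ω) k s := by
    intro k s
    unfold sgn
    refine Measurable.ite ?_ measurable_const measurable_const
    have h1 : Measurable fun ω => Φ ω (k, false) (k + s, true) :=
      (measurable_pi_apply (k + s, true)).comp ((measurable_pi_apply (k, false)).comp hm)
    exact measurableSet_setOfPred.2 h1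
  have hflow : Measurable fun ω => flow (Φ ω) 0 := by
    unfold flow
    exact ((hms _ _).add ((hms _ _).add (hms _ _))).add
      ((((hms _ _).add (hms _ _)).add (hms _ _)).add (hms _ _))
  have hAm : MeasurableSet A := measurableSet_lt measurable_const hflow
  have hzo := Lib.ProductZeroOne.zero_or_one (volume : Measure unitInterval) hAm (by
    intro J
    obtain ⟨M, hM⟩ : ∃ M : ℤ, ∀ v ∈ J, |v.1| ≤ M := by
      refine ⟨∑ v ∈ J, |v.1|, fun v hv => ?_⟩
      exact Finset.single_le_sum (f := fun v : ℤ × Bool => |v.1|) (fun _ _ => abs_nonneg _) hv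
    refine ⟨(trans (2 * M + 1)).toEquiv, fun v hv hv2 => ?_, ?_⟩
    · have h1 := hM v hv
      have h2 := hM _ hv2
      have h3 : ((trans (2 * M + 1)).toEquiv v).1 = v.1 + (2 * M + 1) := rfl
      rw [h3] at h2
      rw [abs_le] at h1 h2
      omega
    · rw [measure_symmDiff_eq_zero_iff]
      have : ∀ᵐ ω ∂μ, (ω ∈ (fun (ω : ℤ × Bool → unitInterval) (v : ℤ × Bool) =>
          ω ((trans (2 * M + 1)).toEquiv v)) ⁻¹' A) ↔ ω ∈ A := by
        filter_upwards [heq (trans (2 * M + 1)), hbal] with ω h1 h2
        have h3 : (Φ fun x => ω (trans (2 * M + 1) x)) =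
            fun u v => Φ ω (trans (2 * M + 1) u) (trans (2 * M + 1) v) := by
          funext u v
          exact h1 u v
        have h4 : flow (Φ fun x => ω (trans (2 * M + 1) x)) 0 = flow (Φ ω) 0 := by
          rw [h3, flow_trans, flow_const h2]
        change 0 < flow (Φ fun x => ω (trans (2 * M + 1) x)) 0 ↔ 0 < flow (Φ ω) 0
        rw [h4]
      exact Filter.eventuallyEq_set.2 this)
  have hflip : μ.real A = μ.real Aᶜ := by
    have hmp := Lib.ProductZeroOne.relabel_measurePreserving (volume : Measure unitInterval)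
      flip.toEquiv
    have h1 : μ.real ((fun (ω : ℤ × Bool → unitInterval) (v : ℤ × Bool) =>
        ω (flip.toEquiv v)) ⁻¹' A) = μ.real A := by
      rw [measureReal_def, measureReal_def]
      congr 1
      exact hmp.measure_preimage hAm.nullMeasurableSet
    rw [← h1]
    refine measureReal_congr (Filter.eventuallyEq_set.2 ?_)
    filter_upwards [heq flip, hbal] with ω h1 h2
    have h3 : (Φ fun x => ω (flip x)) = fun u v => Φ ω (flip u) (flip v) := by
      funext u v
      exact h1 u v
    have h4 : flow (Φ fun x => ω (flip x)) 0 = -flow (Φ ω) 0 := by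
      rw [h3, flow_flip h2.1, flow_const h2]
    change 0 < flow (Φ fun x => ω (flip x)) 0 ↔ ¬ (0 < flow (Φ ω) 0)
    rw [h4]
    have := flow_ne_zero (Φ ω) 0
    omega
  rw [probReal_compl_eq_one_sub hAm] at hflip
  have hzo' : μ.real A = 0 ∨ μ.real A = 1 := hzo
  rcases hzo' with h | h <;> rw [h] at hflip <;> norm_num at hflip

/-- a Schreier decoration contains a balanced orientation -/
lemma schreier_balanced {V : Type*} {G : SimpleGraph V} {d : ℕ} {σ : V → V → Prop × Fin d}
    (h : IsSchreierDecoration G d σ) : IsBalancedOrientation G d (fun u v => (σ u v).1) := by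
  refine ⟨h.1, fun v => ?_⟩
  constructor
  · choose f hf huniq using fun i => (h.2.2 v i).1
    have h1 : {u | (σ v u).1} = f '' univ := by
      ext u
      simp only [mem_ofPred_eq, image_univ, mem_range]
      constructor
      · intro hu
        exact ⟨(σ v u).2, (huniq _ u ⟨hu, rfl⟩).symm⟩
      · rintro ⟨i, rfl⟩
        exact (hf i).1
    have hinj : Function.Injective f := by
      intro i j hij
      have h2 := (hf i).2
      rw [hij, (hf j).2] at h2
      exact h2.symm
    rw [h1, hinj.encard_image, encard_univ]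
    simp
  · choose f hf huniq using fun i => (h.2.2 v i).2
    have h1 : {u | (σ u v).1} = f '' univ := by
      ext u
      simp only [mem_ofPred_eq, image_univ, mem_range]
      constructor
      · intro hu
        exact ⟨(σ u v).2, (huniq _ u ⟨hu, rfl⟩).symm⟩
      · rintro ⟨i, rfl⟩
        exact (hf i).1
    have hinj : Function.Injective f := by
      intro i j hij
      have h2 := (hf i).2
      rw [hij, (hf j).2] at h2
      exact h2.symm
    rw [h1, hinj.encard_image, encard_univ]
    simp

theorem no_schreier : ¬ ExistsAsFactorAE G₀ (IsSchreierDecoration G₀ 2) := by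
  rintro ⟨Φ, hm, heq, hS⟩
  refine no_balanced ⟨fun ω u v => (Φ ω u v).1, ?_, fun γ => ?_, ?_⟩
  · refine measurable_pi_lambda _ fun u => measurable_pi_lambda _ fun v => ?_
    exact measurable_fst.comp ((measurable_pi_apply v).comp ((measurable_pi_apply u).comp hm))
  · filter_upwards [heq γ] with ω h u v
    rw [h u v]
  · filter_upwards [hS] with ω h
    exact schreier_balanced h

/-- **Answer to Q1: yes.**  There are a countably infinite, connected, vertex-transitive graph `G`
and `d ≥ 1` such that `G` is `2d`-regular and has both a factor-of-iid proper edge `2d`-colouring and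
a factor-of-iid perfect matching, but neither a factor-of-iid Schreier decoration nor a
factor-of-iid balanced orientation, not even with almost everywhere equivariance. -/
theorem result : ∃ (V : Type) (G : SimpleGraph V) (d : ℕ),
    1 ≤ d ∧ Countable V ∧ Infinite V ∧ G.Connected ∧
    (∀ v, (G.neighborSet v).encard = 2 * d) ∧
    (∀ u v : V, ∃ γ : G ≃g G, γ u = v) ∧
    ExistsAsFactor G (IsProperEdgeColouring G (2 * d)) ∧
    ExistsAsFactor G (IsPerfectMatching G) ∧
    ¬ ExistsAsFactor G (IsSchreierDecoration G d) ∧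
    ¬ ExistsAsFactor G (IsBalancedOrientation G d) ∧
    ¬ ExistsAsFactorAE G (IsSchreierDecoration G d) ∧
    ¬ ExistsAsFactorAE G (IsBalancedOrientation G d) :=
  ⟨ℤ × Bool, G₀, 2, by norm_num, inferInstance, inferInstance, connected, regular, transitive,
    exists_colouring, exists_matching, fun h => no_schreier h.ae, fun h => no_balanced h.ae,
    no_schreier, no_balanced⟩

end Pool.Agent.Results.MP_71d783_pr.MatchingNoBalanced
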